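import Pool.Graph.R_seed8.H657R3.SC16

/-!
Energy measures of harmonic functions on the Sierpinski carpet: vanishing on an open set, a
criterion for full support, and generic combinations.
-/

set_option autoImplicit false

open Set Topology Filter MeasureTheory
open Pool.Agent.H657R3.SC

namespace Pool.Agent.KS6_21.C

variable {F : Submodule ℝ C(Carpet, ℝ)} {E : C(Carpet, ℝ) → C(Carpet, ℝ) → ℝ}
  {μ : Measure Carpet}

lemma isClosed_V0 : IsClosed V0 := by
  have c1 : Continuous fun z : Carpet => z.1.re :=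
    Complex.continuous_re.comp continuous_subtype_val
  have c2 : Continuous fun z : Carpet => z.1.im :=
    Complex.continuous_im.comp continuous_subtype_val
  exact (isClosed_eq c1 continuous_const).union ((isClosed_eq c1 continuous_const).union
    ((isClosed_eq c2 continuous_const).union (isClosed_eq c2 continuous_const)))

/-- every cell contains a nonempty open set -/
lemma exists_open_in_cell (v : List Idx) : ∃ O : Set Carpet, IsOpen O ∧ O.Nonempty ∧ O ⊆ cell v := by
  refine ⟨{z : Carpet | (z : ℂ) ∈ osq v}, (isOpen_osq v).preimage continuous_subtype_val, ?_, ?_⟩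
  · have h1 : (⟨1, 1⟩ : ℂ) ∈ carpet := bdry_mem (by simp [usq]) (Or.inr (Or.inl rfl))
    refine ⟨cw (v ++ [i0]) ⟨⟨1, 1⟩, h1⟩, ?_⟩
    rw [mem_ofPred_eq, cw_apply]
    have h0 : (0 : ℝ) < 3 ^ v.length := by positivity
    have e1 : (cwC (v ++ [i0]) ⟨1, 1⟩).re = (1 / 3 + cx v) / 3 ^ v.length := by
      rw [cwC_append, cwC_re, cwC_re]
      simp [cx, i0]
    have e2 : (cwC (v ++ [i0]) ⟨1, 1⟩).im = (1 / 3 + cy v) / 3 ^ v.length := by
      rw [cwC_append, cwC_im, cwC_im]
      simp [cy, i0]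
    refine ⟨?_, ?_, ?_, ?_⟩
    · rw [e1, mul_div_cancel₀ _ h0.ne']; linarith
    · rw [e1, mul_div_cancel₀ _ h0.ne']; linarith
    · rw [e2, mul_div_cancel₀ _ h0.ne']; linarith
    · rw [e2, mul_div_cancel₀ _ h0.ne']; linarith
  · intro w hw
    exact ⟨hw.1.le, hw.2.1.le, hw.2.2.1.le, hw.2.2.2.le⟩

section

variable (hF : CarpetForm F E μ)
include hF

/-- if the energy measure of a harmonic function vanishes on an open set, the function is constant
on every cell in this set which does not meet the outer boundary -/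
theorem const_of_null {h : C(Carpet, ℝ)} (hh : h ∈ F)
    (harm : ∀ g ∈ F, (∀ x ∈ V0, g x = 0) → E h g = 0) {Γ : Measure Carpet}
    (hΓ : ∀ g ∈ F, ∫ x, g x ∂Γ = 2 * E h (h * g) - E (h * h) g) {U : Set Carpet}
    (hU : IsOpen U) (hU0 : Γ U = 0) {v : List Idx} (hvU : cell v ⊆ U)
    (hvV : ∀ z ∈ cell v, z ∉ V0) : ∃ c : ℝ, ∀ x ∈ cell v, h x = c := by
  obtain ⟨z, hz⟩ := sq_nonempty v
  have hO : IsOpen (U ∩ V0ᶜ) := hU.inter isClosed_V0.isOpen_compl
  have hvO : cell v ⊆ U ∩ V0ᶜ := fun x hx => ⟨hvU hx, hvV x hx⟩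
  have hh2 := hF.mul_self_mem hh
  have hgE : ∀ g ∈ F, (∀ x, x ∉ U ∩ V0ᶜ → g x = 0) → E (h * h) g = 0 ∧ E h g = 0 := by
    intro g hg hg0
    have hgV : ∀ x ∈ V0, g x = 0 := fun x hx => hg0 x (fun h => h.2 hx)
    have h1 : ∫ x, g x ∂Γ = 0 := by
      apply integral_eq_zero_of_ae
      rw [Filter.EventuallyEq, ae_iff]
      refine measure_mono_null ?_ hU0
      intro x hx
      by_contra hxU
      exact hx (hg0 x (fun h => hxU h.1))
    have h2 := hΓ g hg
    have h3 : E h (h * g) = 0 := harm _ (hF.mul_mem hh hg) (fun x hx => by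
      rw [ContinuousMap.mul_apply, hgV x hx, mul_zero])
    rw [h1, h3] at h2
    exact ⟨by linarith, harm g hg hgV⟩
  obtain ⟨w, hw⟩ : ∃ w : C(Carpet, ℝ), w = (h * h + (-(2 * h z)) • h) + cst ((h z) ^ 2) :=
    ⟨_, rfl⟩
  have hw1 := F.add_mem hh2 (F.smul_mem (-(2 * h z)) hh)
  have hwF : w ∈ F := by
    rw [hw]
    exact F.add_mem hw1 (hF.const_mem _)
  have hwx : ∀ x, w x = (h x - h z) ^ 2 := by
    intro x
    rw [hw]
    simp only [ContinuousMap.add_apply, ContinuousMap.mul_apply, ContinuousMap.smul_apply,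
      ContinuousMap.const_apply, smul_eq_mul]
    ring
  have h4 := hF.smp hwF hO (fun x _ => by rw [hwx]; exact sq_nonneg _)
    (fun g hg hg0 => by
      obtain ⟨h5, h6⟩ := hgE g hg hg0
      rw [hw, hF.add_left _ hw1 _ (hF.const_mem _) g hg, hF.const_left _ hg,
        hF.add_left _ hh2 _ (F.smul_mem _ hh) g hg, hF.smul_left _ h hh g hg, h5, h6]
      ring) hvO hz (by rw [hwx, sub_self]; ring)
  refine ⟨h z, fun x hx => ?_⟩
  have h5 := h4 x hx
  rw [hwx] at h5
  have h6 : h x - h z = 0 := pow_eq_zero_iff (two_ne_zero) |>.1 h5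
  linarith

/-- the energy measure of a function vanishes on every open set on which it is constant -/
theorem null_of_const {h : C(Carpet, ℝ)} (hh : h ∈ F) {Γ : Measure Carpet} (hfin : Γ univ < ⊤)
    (hΓ : ∀ g ∈ F, ∫ x, g x ∂Γ = 2 * E h (h * g) - E (h * h) g) {U : Set Carpet}
    (hU : IsOpen U) {c : ℝ} (hc : ∀ x ∈ U, h x = c) : Γ U = 0 := by
  have hfm : IsFiniteMeasure Γ := ⟨hfin⟩
  rw [hU.measure_eq_iSup_isCompact]
  simp only [ENNReal.iSup_eq_zero]
  intro K hKU hK
  obtain ⟨O, hO, hKO, hOU⟩ := normal_exists_closure_subset hK.isClosed hU hKU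
  obtain ⟨g, hg, hg1, hg0, hgb⟩ := hF.urysohn hK.isClosed hO.isClosed_compl
    (disjoint_left.2 (fun x hx hx' => hx' (hKO hx)))
  have hsup : tsupport g ⊆ U := by
    refine subset_trans (closure_mono ?_) hOU
    intro x hx
    by_contra hxO
    exact hx (hg0 x hxO)
  have hsup2 : tsupport (h * g) ⊆ U := by
    refine subset_trans (closure_mono ?_) hsup
    intro x hx hgx
    apply hx
    rw [ContinuousMap.mul_apply, hgx, mul_zero]
  have e1 : E h (h * g) = 0 :=
    hF.strongly_local h hh _ (hF.mul_mem hh hg) ⟨U, hU, hsup2, c, hc⟩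
  have e2 : E (h * h) g = 0 := by
    refine hF.strongly_local _ (hF.mul_self_mem hh) g hg ⟨U, hU, hsup, c * c, ?_⟩
    intro x hx
    rw [ContinuousMap.mul_apply, hc x hx]
  have e3 := hΓ g hg
  rw [e1, e2] at e3
  have hint : Integrable (fun x => g x) Γ :=
    g.continuous.integrable_of_hasCompactSupport (HasCompactSupport.of_compactSpace _)
  have e4 : ∫ x, g x ∂Γ = 0 := by rw [e3]; ring
  have e5 := (integral_eq_zero_iff_of_nonneg (fun x => (hgb x).1) hint).1 e4
  refine measure_mono_null ?_ (ae_iff.1 e5)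
  intro x hx
  show ¬ g x = 0
  rw [hg1 x hx]
  exact one_ne_zero

/-- full support of the energy measure of a harmonic function means that the function is not
constant on any nonempty open set -/
theorem full_iff {h : C(Carpet, ℝ)} (hh : h ∈ F)
    (harm : ∀ g ∈ F, (∀ x ∈ V0, g x = 0) → E h g = 0) {Γ : Measure Carpet} (hfin : Γ univ < ⊤)
    (hΓ : ∀ g ∈ F, ∫ x, g x ∂Γ = 2 * E h (h * g) - E (h * h) g) :
    (∀ U : Set Carpet, IsOpen U → U.Nonempty → 0 < Γ U) ↔
      ∀ v : List Idx, ¬ ∃ c : ℝ, ∀ x ∈ cell v, h x = c := by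
  constructor
  · rintro h1 v ⟨c, hc⟩
    obtain ⟨O, hO, hOne, hOv⟩ := exists_open_in_cell v
    have h2 := null_of_const hF hh hfin hΓ hO (c := c) (fun x hx => hc x (hOv hx))
    have h3 := h1 O hO hOne
    rw [h2] at h3
    exact lt_irrefl _ h3
  · intro h1 U hU hne
    by_contra hcon
    have hU0 : Γ U = 0 := by simpa using hcon
    obtain ⟨v, hvU, hvV⟩ := exists_inner_cell hU hne
    exact h1 v (const_of_null hF hh harm hΓ hU hU0 hvU hvV)

end

/-- two functions which are not both constant on the same cell: all but countably many combinations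
are not constant on any cell -/
theorem countable_bad (f p : Carpet → ℝ)
    (hp : ∀ v : List Idx, (∃ c : ℝ, ∀ x ∈ cell v, f x = c) → ¬ ∃ c : ℝ, ∀ x ∈ cell v, p x = c)
    : {t : ℝ | ∃ v : List Idx, ∃ c : ℝ, ∀ x ∈ cell v, f x + t * p x = c}.Countable := by
  have h1 : {t : ℝ | ∃ v : List Idx, ∃ c : ℝ, ∀ x ∈ cell v, f x + t * p x = c} =
      ⋃ v : List Idx, {t : ℝ | ∃ c : ℝ, ∀ x ∈ cell v, f x + t * p x = c} := by
    ext t; simp
  rw [h1]
  refine countable_iUnion fun v => Set.Subsingleton.countable ?_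
  rintro t ⟨c, hc⟩ s ⟨d, hd⟩
  by_contra hts
  have hne : t - s ≠ 0 := sub_ne_zero.2 hts
  have h2 : ∀ x ∈ cell v, p x = (c - d) / (t - s) := by
    intro x hx
    rw [eq_div_iff hne]
    have := hc x hx
    have := hd x hx
    linarith
  refine hp v ⟨c - t * ((c - d) / (t - s)), fun x hx => ?_⟩ ⟨_, h2⟩
  have h3 := hc x hx
  rw [h2 x hx] at h3
  linarith

end Pool.Agent.KS6_21.C
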