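import Pool.Agent.KS6_21.C.Gen

/-!
Fully supported energy measures on the Sierpinski carpet: criterion, potentials with two poles,
generic combinations and density.
-/

set_option autoImplicit false

open Set Topology Filter MeasureTheory
open Pool.Agent.H657R3.SC

namespace Pool.Agent.KS6_21.C

/-- `h` has exactly one energy measure, and this measure has full support -/
def FullySupported (F : Set Fn) (E : Fn → Fn → ℝ) (h : Fn) : Prop :=
  ∃ Γ : Measure Carpet, (∀ Γ', IsEnergyMeasure F E h Γ' ↔ Γ' = Γ) ∧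
    ∀ U : Set Carpet, IsOpen U → U.Nonempty → 0 < Γ U

/-- `h` is constant on `U` -/
def ConstOn (h : Fn) (U : Set Carpet) : Prop := ∃ c : ℝ, ∀ x ∈ U, h x = c

/-- the outer boundary of the carpet, the boundary of the unit square -/
def OuterBoundary : Set Carpet :=
  {z : Carpet | z.1.re = 0 ∨ z.1.re = 1 ∨ z.1.im = 0 ∨ z.1.im = 1}

/-- the plain data of a canonical form, bundled -/
structure Bun (F : Set Fn) (E : Fn → Fn → ℝ) (μ : Measure Carpet)
    (F' : Submodule ℝ C(Carpet, ℝ)) (E' : C(Carpet, ℝ) → C(Carpet, ℝ) → ℝ) : Prop where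
  prob : IsProbabilityMeasure μ
  form : CarpetForm F' E' μ
  mem : ∀ f : C(Carpet, ℝ), f ∈ F' ↔ ⇑f ∈ F
  val : ∀ f g : C(Carpet, ℝ), E' f g = E ⇑f ⇑g
  cont : ∀ f ∈ F, Continuous f

theorem exists_bun {F : Set Fn} {E : Fn → Fn → ℝ} {μ : Measure Carpet}
    (hμ : IsSelfSimilarMeasure μ) (hF : CanonicalForm F E μ) :
    ∃ F' E', Bun F E μ F' E' := by
  obtain ⟨ρ, hρ, hss⟩ := hF.selfSimilar
  have hP0 : Plain0 F E μ ρ := ⟨hF.space, hF.form, hF.markov, hF.closed, hF.regular,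
    hF.isLocal, hF.invariant, hss⟩
  obtain ⟨hρ1, hR, hSL⟩ := hP0.derived hρ hμ
  have hP : Plain F E μ ρ := ⟨hF.space, hF.form, hF.markov, hF.closed, hF.regular,
    hSL, hF.invariant, hss⟩
  exact ⟨hP.dom, Plain.frm E, ⟨hμ.1⟩, hP.toCarpetForm hρ1 hR, fun f => Iff.rfl,
    fun f g => rfl, hP.space.1⟩

section

variable {F : Set Fn} {E : Fn → Fn → ℝ} {μ : Measure Carpet}
  {F' : Submodule ℝ C(Carpet, ℝ)} {E' : C(Carpet, ℝ) → C(Carpet, ℝ) → ℝ}
  (hB : Bun F E μ F' E')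
include hB

/-- every function in the domain has exactly one energy measure -/
theorem exists_unique_energy {h : Fn} (hh : h ∈ F) :
    ∃ Γ : Measure Carpet, ∀ Γ', IsEnergyMeasure F E h Γ' ↔ Γ' = Γ := by
  have := hB.prob
  obtain ⟨Γ, hΓf, hΓ⟩ := hB.form.exists_energy (h := ⟨h, hB.cont h hh⟩) ((hB.mem _).2 hh)
  have key : ∀ g : C(Carpet, ℝ), La E' ⟨h, hB.cont h hh⟩ g =
      2 * E h (fun x => h x * g x) - E (fun x => h x * h x) ⇑g := by
    intro g
    unfold La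
    rw [hB.val, hB.val]
    rfl
  refine ⟨Γ, fun Γ' => ⟨?_, ?_⟩⟩
  · rintro ⟨h1, h2⟩
    apply hB.form.unique_energy h1 hΓf
    intro g hg
    rw [hΓ g hg, key]
    exact h2 ⇑g ((hB.mem g).1 hg)
  · rintro rfl
    refine ⟨hΓf, fun g hg => ?_⟩
    have := hΓ ⟨g, hB.cont g hg⟩ ((hB.mem _).2 hg)
    rw [key] at this
    exact this

/-- criterion -/
theorem criterion_cells {h : Fn} (hh : IsHarmonic F E h) :
    FullySupported F E h ↔ ∀ v : List Idx, ¬ ConstOn h (cell v) := by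
  have harm : ∀ g ∈ F', (∀ x ∈ V0, g x = 0) → E' ⟨h, hB.cont h hh.1⟩ g = 0 := by
    intro g hg hg0
    rw [hB.val]
    exact hh.2 ⇑g ((hB.mem g).1 hg) hg0
  have hmem : (⟨h, hB.cont h hh.1⟩ : C(Carpet, ℝ)) ∈ F' := (hB.mem _).2 hh.1
  obtain ⟨Γ, hΓ⟩ := exists_unique_energy hB hh.1
  have hΓ1 := (hΓ Γ).2 rfl
  have h0 := full_iff hB.form hmem harm hΓ1.1 (fun g hg => by
    rw [hB.val, hB.val]
    exact hΓ1.2 ⇑g ((hB.mem g).1 hg))
  constructor
  · rintro ⟨Γ', hΓ', hfull⟩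
    have h1 : Γ = Γ' := (hΓ' Γ).1 hΓ1
    rw [← h1] at hfull
    exact h0.1 hfull
  · intro h1
    exact ⟨Γ, hΓ, h0.2 h1⟩

theorem criterion {h : Fn} (hh : IsHarmonic F E h) :
    FullySupported F E h ↔ ∀ U : Set Carpet, IsOpen U → U.Nonempty → ¬ ConstOn h U := by
  rw [criterion_cells hB hh]
  constructor
  · rintro h1 U hU hne ⟨c, hc⟩
    obtain ⟨v, hvU, hvV⟩ := exists_inner_cell hU hne
    exact h1 v ⟨c, fun x hx => hc x (hvU hx)⟩
  · rintro h1 v ⟨c, hc⟩
    obtain ⟨O, hO, hOne, hOv⟩ := exists_open_in_cell v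
    exact h1 O hO hOne ⟨c, fun x hx => hc x (hOv hx)⟩

/-- existence of the potential with two given poles -/
theorem exists_two_poles {a b : Carpet} (hab : a ≠ b) : ∃ p ∈ F, p a = 1 ∧ p b = 0 ∧
    ∀ g ∈ F, g a = 0 → g b = 0 → E p g = 0 := by
  have := hB.prob
  obtain ⟨h, hh, ha, hb, harm⟩ := hB.form.exists_potential hab
  refine ⟨⇑h, (hB.mem h).1 hh, ha, hb, fun g hg ga gb => ?_⟩
  have := harm ⟨g, hB.cont g hg⟩ ((hB.mem _).2 hg) ga gb
  rw [hB.val] at this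
  exact this

/-- potentials with two poles on the outer boundary -/
theorem two_poles {a b : Carpet} (ha : a ∈ OuterBoundary) (hb : b ∈ OuterBoundary) {p : Fn}
    (hp : p ∈ F) (hne : p a ≠ p b) (harm : ∀ g ∈ F, g a = 0 → g b = 0 → E p g = 0) :
    IsHarmonic F E p ∧ FullySupported F E p := by
  have hH : IsHarmonic F E p := ⟨hp, fun g hg hg0 => harm g hg (hg0 a ha) (hg0 b hb)⟩
  refine ⟨hH, (criterion_cells hB hH).2 ?_⟩
  rintro v ⟨c, hc⟩
  have hd : p a - p b ≠ 0 := sub_ne_zero.2 hne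
  obtain ⟨P, hP⟩ : ∃ P : C(Carpet, ℝ), P = ⟨p, hB.cont p hp⟩ := ⟨_, rfl⟩
  have hPx : ∀ x, P x = p x := fun x => by rw [hP]; rfl
  have hPF : P ∈ F' := by rw [hP]; exact (hB.mem _).2 hp
  have hPh : ∀ g ∈ F', g a = 0 → g b = 0 → E' P g = 0 := by
    intro g hg ga gb
    rw [hB.val, hP]
    exact harm ⇑g ((hB.mem g).1 hg) ga gb
  obtain ⟨q, hq⟩ : ∃ q : C(Carpet, ℝ), q = (p a - p b)⁻¹ • (P - cst (p b)) := ⟨_, rfl⟩
  have hqx : ∀ x, q x = (p a - p b)⁻¹ * (p x - p b) := by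
    intro x
    rw [hq]
    simp only [ContinuousMap.smul_apply, ContinuousMap.sub_apply, smul_eq_mul, hPx,
      ContinuousMap.const_apply]
  have hPc : P - cst (p b) ∈ F' := F'.sub_mem hPF (hB.form.const_mem _)
  have hqF : q ∈ F' := by rw [hq]; exact F'.smul_mem _ hPc
  have hpot : Pot F' E' q := by
    refine ⟨hqF, a, ha, b, hb, ?_, ?_, ?_⟩
    · rw [hqx, inv_mul_cancel₀ hd]
    · rw [hqx, sub_self, mul_zero]
    · intro g hg ga gb
      have e1 : q = (p a - p b)⁻¹ • (P + cst (-(p b))) := by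
        rw [hq]
        congr 1
      rw [e1, hB.form.smul_left _ _ (F'.add_mem hPF (hB.form.const_mem _)) _ hg,
        hB.form.add_left _ hPF _ (hB.form.const_mem _) _ hg, hPh g hg ga gb,
        hB.form.const_left _ hg, add_zero, mul_zero]
  exact hB.form.not_const hpot v ((p a - p b)⁻¹ * (c - p b)) (fun x hx => by
    rw [hqx, hc x hx])

/-- linear combinations of harmonic functions -/
theorem harmonic_comb {h p : Fn} (hh : IsHarmonic F E h) (hp : IsHarmonic F E p) (t : ℝ) :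
    IsHarmonic F E (fun x => h x + t * p x) := by
  obtain ⟨H, hH⟩ : ∃ H : C(Carpet, ℝ), H = ⟨h, hB.cont h hh.1⟩ := ⟨_, rfl⟩
  obtain ⟨P, hP⟩ : ∃ P : C(Carpet, ℝ), P = ⟨p, hB.cont p hp.1⟩ := ⟨_, rfl⟩
  have hHF : H ∈ F' := by rw [hH]; exact (hB.mem _).2 hh.1
  have hPF : P ∈ F' := by rw [hP]; exact (hB.mem _).2 hp.1
  have hx : (fun x => h x + t * p x) = ⇑(H + t • P) := by
    rw [hH, hP]; rfl
  refine ⟨?_, fun g hg hg0 => ?_⟩
  · rw [hx]
    exact (hB.mem _).1 (F'.add_mem hHF (F'.smul_mem t hPF))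
  · obtain ⟨G, hG⟩ : ∃ G : C(Carpet, ℝ), G = ⟨g, hB.cont g hg⟩ := ⟨_, rfl⟩
    have hGF : G ∈ F' := by rw [hG]; exact (hB.mem _).2 hg
    have hgG : g = ⇑G := by rw [hG]; rfl
    rw [hx, hgG, ← hB.val, hB.form.add_left _ hHF _ (F'.smul_mem t hPF) _ hGF,
      hB.form.smul_left _ _ hPF _ hGF, hB.val, hB.val, ← hgG]
    have e1 : E ⇑H g = 0 := by rw [hH]; exact hh.2 g hg hg0
    have e2 : E ⇑P g = 0 := by rw [hP]; exact hp.2 g hg hg0
    rw [e1, e2, mul_zero, add_zero]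

/-- countably many exceptions on every line -/
theorem countable_exceptions {h p : Fn} (hh : IsHarmonic F E h) (hp : IsHarmonic F E p)
    (hc : ∀ U : Set Carpet, IsOpen U → U.Nonempty → ConstOn h U → ¬ ConstOn p U) :
    {t : ℝ | ¬ FullySupported F E (fun x => h x + t * p x)}.Countable := by
  refine (countable_bad h p ?_).mono ?_
  · intro v h1 h2
    obtain ⟨O, hO, hOne, hOv⟩ := exists_open_in_cell v
    obtain ⟨c, h1⟩ := h1
    obtain ⟨d, h2⟩ := h2
    exact hc O hO hOne ⟨c, fun x hx => h1 x (hOv hx)⟩ ⟨d, fun x hx => h2 x (hOv hx)⟩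
  · intro t ht
    have h1 : ¬ FullySupported F E (fun x => h x + t * p x) := ht
    rw [criterion_cells hB (harmonic_comb hB hh hp t)] at h1
    push Not at h1
    exact h1

/-- density -/
theorem dense_full {h : Fn} (hh : IsHarmonic F E h) {ε : ℝ} (hε : 0 < ε) :
    ∃ k, IsHarmonic F E k ∧ FullySupported F E k ∧ (∀ x, |k x - h x| < ε) ∧
      E (fun x => k x - h x) (fun x => k x - h x) < ε := by
  obtain ⟨p, hp, p1, p0, harm⟩ := exists_two_poles hB (a := z0) (b := z1) (by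
    intro h
    have := congrArg Subtype.val h
    exact zero_ne_one this)
  have ha' : z0 ∈ OuterBoundary := Or.inl rfl
  have hb' : z1 ∈ OuterBoundary := Or.inr (Or.inl rfl)
  obtain ⟨hpH, hpf⟩ := two_poles hB ha' hb' hp (by rw [p1, p0]; exact one_ne_zero) harm
  have hcnt := countable_exceptions hB hh hpH (fun U hU hne _ hc =>
    (criterion hB hpH).1 hpf U hU hne hc)
  obtain ⟨P, hP⟩ : ∃ P : C(Carpet, ℝ), P = ⟨p, hB.cont p hp⟩ := ⟨_, rfl⟩
  have hPF : P ∈ F' := by rw [hP]; exact (hB.mem _).2 hp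
  have hPx : ∀ x, P x = p x := fun x => by rw [hP]; rfl
  obtain ⟨δ, hδ0, hδ1⟩ : ∃ δ : ℝ, 0 < δ ∧ ∀ t : ℝ, |t| < δ → |t| * ‖P‖ < ε ∧ t * (t * E' P P) < ε := by
    have c1 : ContinuousAt (fun t : ℝ => |t| * ‖P‖) 0 := by fun_prop
    have c2 : ContinuousAt (fun t : ℝ => t * (t * E' P P)) 0 := by fun_prop
    have d1 : ∀ᶠ t in 𝓝 (0 : ℝ), |t| * ‖P‖ < ε := by
      apply c1.eventually_lt continuousAt_const
      simpa using hε
    have d2 : ∀ᶠ t in 𝓝 (0 : ℝ), t * (t * E' P P) < ε := by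
      apply c2.eventually_lt continuousAt_const
      simpa using hε
    obtain ⟨δ, hδ, h1⟩ := Metric.eventually_nhds_iff.1 (d1.and d2)
    exact ⟨δ, hδ, fun t ht => h1 (by simpa [Real.dist_eq] using ht)⟩
  obtain ⟨t, ht1, ht2⟩ := (hcnt.dense_compl ℝ).exists_mem_open (isOpen_Ioo (a := -δ) (b := δ))
    ⟨0, by constructor <;> linarith⟩
  have ht3 : |t| < δ := abs_lt.2 ht2
  obtain ⟨e1, e2⟩ := hδ1 t ht3
  refine ⟨fun x => h x + t * p x, harmonic_comb hB hh hpH t, by simpa using ht1, ?_, ?_⟩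
  · intro x
    have : h x + t * p x - h x = t * P x := by rw [hPx]; ring
    rw [this, abs_mul]
    refine lt_of_le_of_lt ?_ e1
    exact mul_le_mul_of_nonneg_left (P.norm_coe_le_norm x) (abs_nonneg t)
  · have : (fun x => h x + t * p x - h x) = ⇑(t • P) := by
      funext x
      rw [ContinuousMap.smul_apply, hPx, smul_eq_mul]
      ring
    rw [this, ← hB.val, hB.form.smul_left _ _ hPF _ (F'.smul_mem t hPF),
      hB.form.smul_right t hPF hPF]
    exact e2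

end

end Pool.Agent.KS6_21.C
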